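import Pool.Agent.EVN.A.Rat

/-!
EVN, final part: the lower bound for two lengths `n ≤ n'` on the honeycomb lattice, and `a_k ≤ C a_(k+1)`.
-/

namespace Pool.Agent.EVN

open Pool.Agent.Hhelper14.SAW Pool.Agent.RAT Pool.Agent.HHP
open scoped ENNReal

/-- The probability of the event of Q1 for walks of lengths `n`, `n'`, as a real number. -/
noncomputable def Pr (n n' : ℕ) : ℝ := (an (n + n') : ℝ) / ((an n : ℝ) * (an n' : ℝ))

lemma F_an_pos (m : ℕ) : (0 : ℝ) < an m := by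
  have h := cn_pos_of false m
  rw [cn_false] at h
  exact_mod_cast h

lemma F_an_ta (m : ℕ) : (an m : ℝ) = ta m * mu ^ m := by
  unfold ta
  rw [div_mul_cancel₀ _ (pow_pos mu_pos m).ne']

lemma Pr_ta (n n' : ℕ) : Pr n n' = ta (n + n') / (ta n * ta n') := by
  have h1 := ta_pos n
  have h2 := ta_pos n'
  have h3 : 0 < mu ^ n := pow_pos mu_pos n
  have h4 : 0 < mu ^ n' := pow_pos mu_pos n'
  unfold Pr
  rw [F_an_ta, F_an_ta n, F_an_ta n', pow_add]
  field_simp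

/-- `a_k ≤ C a_(k+1)`. -/
theorem an_succ_ge : ∃ C : ℝ, 0 < C ∧ ∀ k : ℕ, (an k : ℝ) ≤ C * an (k + 1) := by
  obtain ⟨C, hC, h⟩ := ta_cmp
  have hm := mu_pos
  have h0 := F_an_pos 0
  have h1 := F_an_pos 1
  refine ⟨C / mu + an 0 / an 1, by positivity, fun k => ?_⟩
  rcases Nat.eq_zero_or_pos k with rfl | hk
  · have : 0 ≤ C / mu * (an 1 : ℝ) := by positivity
    have e : (an 0 : ℝ) / an 1 * an 1 = an 0 := div_mul_cancel₀ _ h1.ne'
    rw [add_mul, zero_add, e]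
    linarith
  · have h2 := (h (k + 1) 1 (by omega)).2
    rw [Nat.add_sub_cancel] at h2
    have h3 : (an k : ℝ) ≤ C / mu * an (k + 1) := by
      rw [F_an_ta k, F_an_ta (k + 1), pow_succ]
      have h4 : 0 < mu ^ k := pow_pos hm k
      calc ta k * mu ^ k ≤ (C * ta (k + 1)) * mu ^ k := mul_le_mul_of_nonneg_right h2 h4.le
        _ = C / mu * (ta (k + 1) * (mu ^ k * mu)) := by field_simp
    have h5 : 0 ≤ (an 0 : ℝ) / an 1 * an (k + 1) := by
      have := F_an_pos (k + 1)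
      positivity
    rw [add_mul]
    linarith

/-- Two lengths `n ≤ n'`: `P(n, n') ≥ n^(-C) / C`. -/
theorem low2 : ∃ C : ℝ, 0 < C ∧ ∀ n n' : ℕ, 1 ≤ n → n ≤ n' → (n : ℝ) ^ (-C) / C ≤ Pr n n' := by
  obtain ⟨C, hC, h⟩ := ta_cmp
  obtain ⟨K, hK, lo, up⟩ := an_bounds
  have hup : ∀ m : ℕ, 1 ≤ m → ta m ≤ K * (m : ℝ) ^ K := by
    intro m hm
    unfold ta
    rw [div_le_iff₀ (pow_pos mu_pos m)]
    exact up m hm
  have hlo : ∀ m : ℕ, 1 ≤ m → 1 ≤ ta m := by
    intro m hm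
    unfold ta
    rw [le_div_iff₀ (pow_pos mu_pos m), one_mul]
    exact lo m hm
  set D : ℝ := 6 * K + K ^ 2 + C * K with hD
  have hD0 : 0 < D := by positivity
  refine ⟨D, hD0, fun n n' hn hnn => ?_⟩
  have hn1 : (1 : ℝ) ≤ n := by exact_mod_cast hn
  have hn0 : (0 : ℝ) < n := by linarith
  have t1 := ta_pos n
  have t2 := ta_pos n'
  rw [Pr_ta, div_le_div_iff₀ hD0 (mul_pos t1 t2)]
  by_cases hc : n ^ 5 ≤ n'
  · have h1 := (h (n + n') n (by omega)).2
    rw [Nat.add_sub_cancel_left] at h1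
    have h2 := hup n hn
    have h3 : (n : ℝ) ^ (-D) * (n : ℝ) ^ K ≤ 1 := by
      rw [← Real.rpow_add hn0]
      exact Real.rpow_le_one_of_one_le_of_nonpos hn1 (by nlinarith)
    have h4 : 0 < ta (n + n') := ta_pos _
    calc (n : ℝ) ^ (-D) * (ta n * ta n') ≤ (n : ℝ) ^ (-D) * ((K * (n : ℝ) ^ K) * (C * ta (n + n'))) := by
          gcongr
      _ = (C * K) * ((n : ℝ) ^ (-D) * (n : ℝ) ^ K) * ta (n + n') := by ring
      _ ≤ D * 1 * ta (n + n') := by
          gcongr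
          rw [hD]; nlinarith
      _ = ta (n + n') * D := by ring
  · have hc' : n' ≤ n ^ 5 := by omega
    have h1 := hup n hn
    have h2 := hup n' (by omega)
    have h3 := hlo (n + n') (by omega)
    have h5 : (n' : ℝ) ^ K ≤ (n : ℝ) ^ (5 * K) := by
      have e1 : (n' : ℝ) ≤ (n : ℝ) ^ (5 : ℝ) := by
        rw [show (5 : ℝ) = ((5 : ℕ) : ℝ) by norm_num, Real.rpow_natCast]
        exact_mod_cast hc'
      rw [Real.rpow_mul hn0.le]
      exact Real.rpow_le_rpow (by positivity) e1 hK.le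
    have h6 : (n : ℝ) ^ (-D) * ((n : ℝ) ^ K * (n : ℝ) ^ (5 * K)) ≤ 1 := by
      rw [← Real.rpow_add hn0, ← Real.rpow_add hn0]
      exact Real.rpow_le_one_of_one_le_of_nonpos hn1 (by nlinarith)
    calc (n : ℝ) ^ (-D) * (ta n * ta n') ≤
          (n : ℝ) ^ (-D) * ((K * (n : ℝ) ^ K) * (K * (n : ℝ) ^ (5 * K))) := by
          gcongr
          exact h2.trans (by gcongr)
      _ = K ^ 2 * ((n : ℝ) ^ (-D) * ((n : ℝ) ^ K * (n : ℝ) ^ (5 * K))) := by ring
      _ ≤ D * 1 := by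
          have : (0 : ℝ) < (n : ℝ) ^ (-D) * ((n : ℝ) ^ K * (n : ℝ) ^ (5 * K)) := by positivity
          nlinarith
      _ ≤ ta (n + n') * D := by nlinarith

end Pool.Agent.EVN
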