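import Pool.Agent.Hhelper64.T12.Ana
import Pool.Agent.EVN.F.Low

/-!
EVN, final part: the decorations of the walks of the lattice `(3,12^2)` are cut at a given weight;
`FF n = ∑_k a_k cnt k n` against the number `bn n` of walks of the lattice `(3,12^2)`.
-/

namespace Pool.Agent.EVN

open Pool.Agent.Hhelper14.SAW Pool.Agent.Hhelper64.T12 Finset

/-- Two pieces put together. -/
theorem F_cnt_mul (n n' : ℕ) : ∀ m : ℕ, ∑ k ∈ range (m + 1), cnt k n * cnt (m - k) n' ≤ cnt m (n + n') := by
  induction n using Nat.strong_induction_on with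
  | _ n ih =>
    intro m
    rcases Nat.eq_zero_or_pos n with rfl | hn
    · rw [sum_range_succ', cnt_zero, if_pos rfl, one_mul, Nat.sub_zero, zero_add]
      have : ∑ k ∈ range m, cnt (k + 1) 0 * cnt (m - (k + 1)) n' = 0 := by
        refine sum_eq_zero fun k _ => ?_
        rw [cnt_eq_zero (k + 1) 0 (by omega), zero_mul]
      rw [this, zero_add]
    · rw [sum_range_succ', cnt_zero, if_neg (by omega), zero_mul, add_zero]
      cases m with
      | zero => simp
      | succ m =>
        have e : ∀ k ∈ range (m + 1), cnt (k + 1) n * cnt (m + 1 - (k + 1)) n' =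
            (if 2 ≤ n then cnt k (n - 2) * cnt (m - k) n' else 0) +
            (if 3 ≤ n then cnt k (n - 3) * cnt (m - k) n' else 0) := by
          intro k _
          rw [cnt_succ, Nat.add_sub_add_right]
          split_ifs <;> ring
        rw [sum_congr rfl e, sum_add_distrib, cnt_succ]
        refine Nat.add_le_add ?_ ?_
        · by_cases h2 : 2 ≤ n
          · simp only [if_pos h2, if_pos (show 2 ≤ n + n' by omega)]
            refine (ih (n - 2) (by omega) m).trans (le_of_eq ?_)
            congr 1; omega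
          · simp [if_neg h2]
        · by_cases h3 : 3 ≤ n
          · simp only [if_pos h3, if_pos (show 3 ≤ n + n' by omega)]
            refine (ih (n - 3) (by omega) m).trans (le_of_eq ?_)
            congr 1; omega
          · simp [if_neg h3]

/-- The sum over the cuts, from the weight `n + e`. -/
def cutS (n s m : ℕ) : ℕ := ∑ e ∈ range 3, ∑ k ∈ range (m + 1), cnt k (n + e) * cnt (m - k) (s - e)

lemma F_one_le {f : ℕ → ℕ} {m k : ℕ} (hk : k ∈ range (m + 1)) : f k ≤ ∑ k ∈ range (m + 1), f k :=
  single_le_sum (f := f) (fun _ _ => Nat.zero_le _) hk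

lemma F_cnt1_2 : cnt 1 2 = 1 := by rw [cnt_succ]; simp [cnt_zero]
lemma F_cnt1_3 : cnt 1 3 = 1 := by rw [cnt_succ]; simp [cnt_zero]

/-- A cut at the first time when the weight is at least `n`. -/
theorem F_cnt_cut (s : ℕ) (hs : 2 ≤ s) (n : ℕ) : ∀ m : ℕ, cnt m (n + s) ≤ cutS n s m := by
  induction n using Nat.strong_induction_on with
  | _ n ih =>
    intro m
    rcases Nat.lt_or_ge n 3 with hn | hn
    · interval_cases n
      · -- n = 0
        have h1 : cnt 0 (0 + 0) * cnt (m - 0) (s - 0) ≤ ∑ k ∈ range (m + 1), cnt k (0 + 0) * cnt (m - k) (s - 0) :=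
          F_one_le (f := fun k => cnt k (0 + 0) * cnt (m - k) (s - 0)) (mem_range.2 (by omega))
        unfold cutS
        rw [sum_range_succ, sum_range_succ, sum_range_one]
        rw [cnt_zero, if_pos rfl] at h1
        simp only [Nat.sub_zero, one_mul, zero_add] at h1 ⊢
        omega
      · -- n = 1
        cases m with
        | zero => rw [cnt_zero, if_neg (by omega)]; exact Nat.zero_le _
        | succ m =>
          have h1 : cnt 1 (1 + 1) * cnt (m + 1 - 1) (s - 1) ≤
              ∑ k ∈ range (m + 1 + 1), cnt k (1 + 1) * cnt (m + 1 - k) (s - 1) :=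
            F_one_le (f := fun k => cnt k (1 + 1) * cnt (m + 1 - k) (s - 1)) (mem_range.2 (by omega))
          have h2 : cnt 1 (1 + 2) * cnt (m + 1 - 1) (s - 2) ≤
              ∑ k ∈ range (m + 1 + 1), cnt k (1 + 2) * cnt (m + 1 - k) (s - 2) :=
            F_one_le (f := fun k => cnt k (1 + 2) * cnt (m + 1 - k) (s - 2)) (mem_range.2 (by omega))
          rw [show 1 + 1 = 2 from rfl, F_cnt1_2, one_mul, Nat.add_sub_cancel] at h1
          rw [show 1 + 2 = 3 from rfl, F_cnt1_3, one_mul, Nat.add_sub_cancel] at h2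
          unfold cutS
          rw [sum_range_succ, sum_range_succ, sum_range_one, cnt_succ, if_pos (by omega), if_pos (by omega)]
          rw [show 1 + s - 2 = s - 1 by omega, show 1 + s - 3 = s - 2 by omega]
          rw [show 1 + 1 = 2 from rfl, show 1 + 2 = 3 from rfl]
          omega
      · -- n = 2
        cases m with
        | zero => rw [cnt_zero, if_neg (by omega)]; exact Nat.zero_le _
        | succ m =>
          have h1 : cnt 1 (2 + 0) * cnt (m + 1 - 1) (s - 0) ≤
              ∑ k ∈ range (m + 1 + 1), cnt k (2 + 0) * cnt (m + 1 - k) (s - 0) :=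
            F_one_le (f := fun k => cnt k (2 + 0) * cnt (m + 1 - k) (s - 0)) (mem_range.2 (by omega))
          have h2 : cnt 1 (2 + 1) * cnt (m + 1 - 1) (s - 1) ≤
              ∑ k ∈ range (m + 1 + 1), cnt k (2 + 1) * cnt (m + 1 - k) (s - 1) :=
            F_one_le (f := fun k => cnt k (2 + 1) * cnt (m + 1 - k) (s - 1)) (mem_range.2 (by omega))
          rw [show 2 + 0 = 2 from rfl, F_cnt1_2, one_mul, Nat.add_sub_cancel, Nat.sub_zero] at h1
          rw [show 2 + 1 = 3 from rfl, F_cnt1_3, one_mul, Nat.add_sub_cancel] at h2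
          unfold cutS
          rw [sum_range_succ, sum_range_succ, sum_range_one, cnt_succ, if_pos (by omega), if_pos (by omega)]
          rw [show 2 + s - 2 = s by omega, show 2 + s - 3 = s - 1 by omega]
          rw [show 2 + 0 = 2 from rfl, show 2 + 1 = 3 from rfl, Nat.sub_zero]
          omega
    · cases m with
      | zero => rw [cnt_zero, if_neg (by omega)]; exact Nat.zero_le _
      | succ m =>
        have h2 := ih (n - 2) (by omega) m
        have h3 := ih (n - 3) (by omega) m
        rw [cnt_succ, if_pos (by omega), if_pos (by omega), show n + s - 2 = n - 2 + s by omega,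
          show n + s - 3 = n - 3 + s by omega]
        refine (Nat.add_le_add h2 h3).trans ?_
        unfold cutS
        rw [← sum_add_distrib]
        refine sum_le_sum fun e _ => ?_
        rw [← sum_add_distrib, sum_range_succ' (fun k => cnt k (n + e) * cnt (m + 1 - k) (s - e))]
        refine le_trans (le_of_eq ?_) (Nat.le_add_right _ _)
        refine sum_congr rfl fun k _ => ?_
        rw [cnt_succ, if_pos (by omega), if_pos (by omega), Nat.add_sub_add_right,
          show n + e - 2 = n - 2 + e by omega, show n + e - 3 = n - 3 + e by omega]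
        ring

/-- Honeycomb walks with decorations of total weight `n`. -/
noncomputable def FF (n : ℕ) : ℝ := ∑ k ∈ range (n + 1), (an k : ℝ) * cnt k n

lemma FF_nonneg (n : ℕ) : 0 ≤ FF n := sum_nonneg fun _ _ => by positivity

/-- The sum may run further. -/
lemma FF_eq {n M : ℕ} (h : n ≤ M) : FF n = ∑ k ∈ range (M + 1), (an k : ℝ) * cnt k n := by
  unfold FF
  refine sum_subset (range_mono (by omega)) fun k _ hk => ?_
  rw [mem_range, not_lt] at hk
  rw [cnt_eq_zero k n (by omega), Nat.cast_zero, mul_zero]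

lemma FF_le_bn (n : ℕ) : 2 * FF n ≤ 3 * bn n := by
  have h := lower n
  unfold FF
  exact_mod_cast h

/-- One more piece of weight `2` or `3`. -/
lemma FF_step : ∃ C : ℝ, 1 ≤ C ∧ ∀ n : ℕ, FF n ≤ C * FF (n + 2) ∧ FF n ≤ C * FF (n + 3) := by
  obtain ⟨C, hC, h⟩ := an_succ_ge
  refine ⟨C + 1, by linarith, fun n => ?_⟩
  have key : ∀ d : ℕ, (∀ k, cnt k n ≤ cnt (k + 1) (n + d)) → FF n ≤ (C + 1) * FF (n + d) := by
    intro d hd
    have h1 : ∑ k ∈ range (n + 1), (an (k + 1) : ℝ) * cnt (k + 1) (n + d) ≤ FF (n + d) := by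
      rw [FF_eq (show n + d ≤ n + d + 1 by omega),
        sum_range_succ' (fun k => (an k : ℝ) * cnt k (n + d)) (n + d + 1)]
      have e : ∑ k ∈ range (n + 1), (an (k + 1) : ℝ) * cnt (k + 1) (n + d) ≤
          ∑ k ∈ range (n + d + 1), (an (k + 1) : ℝ) * cnt (k + 1) (n + d) :=
        sum_le_sum_of_subset_of_nonneg (range_mono (by omega)) fun _ _ _ => by positivity
      have e2 : (0 : ℝ) ≤ (an 0 : ℝ) * cnt 0 (n + d) := by positivity
      linarith
    have h2 : FF n ≤ C * ∑ k ∈ range (n + 1), (an (k + 1) : ℝ) * cnt (k + 1) (n + d) := by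
      unfold FF
      rw [mul_sum]
      refine sum_le_sum fun k _ => ?_
      have g1 := h k
      have g2 : (cnt k n : ℝ) ≤ cnt (k + 1) (n + d) := by exact_mod_cast hd k
      calc (an k : ℝ) * cnt k n ≤ (C * an (k + 1)) * cnt (k + 1) (n + d) :=
            mul_le_mul g1 g2 (by positivity) (by positivity)
        _ = _ := by ring
    have h3 := FF_nonneg (n + d)
    nlinarith
  constructor
  · refine key 2 fun k => ?_
    rw [cnt_succ, if_pos (by omega), Nat.add_sub_cancel]
    exact Nat.le_add_right _ _
  · refine key 3 fun k => ?_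
    rw [cnt_succ, if_pos (show 3 ≤ n + 3 by omega), Nat.add_sub_cancel]
    exact Nat.le_add_left _ _

/-- Any number of pieces. -/
lemma FF_add : ∃ C : ℝ, 1 ≤ C ∧ ∀ n d : ℕ, 2 ≤ d → d ≤ 12 → FF n ≤ C * FF (n + d) := by
  obtain ⟨C, hC, h⟩ := FF_step
  refine ⟨C ^ 12, one_le_pow₀ hC, fun n d hd hd12 => ?_⟩
  have key : ∀ e : ℕ, 2 ≤ e → ∀ n, FF n ≤ C ^ e * FF (n + e) := by
    intro e
    induction e using Nat.strong_induction_on with
    | _ e ih =>
      intro he n
      have hCe : C ≤ C ^ e := by
        calc C = C ^ 1 := (pow_one C).symm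
          _ ≤ C ^ e := pow_le_pow_right₀ hC (by omega)
      rcases Nat.lt_or_ge e 4 with h4 | h4
      · interval_cases e
        · exact (h n).1.trans (mul_le_mul_of_nonneg_right hCe (FF_nonneg _))
        · exact (h n).2.trans (mul_le_mul_of_nonneg_right hCe (FF_nonneg _))
      · have h5 := ih (e - 2) (by omega) (by omega) n
        have h6 := (h (n + (e - 2))).1
        rw [show n + (e - 2) + 2 = n + e by omega] at h6
        calc FF n ≤ C ^ (e - 2) * FF (n + (e - 2)) := h5
          _ ≤ C ^ (e - 2) * (C * FF (n + e)) := by gcongr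
          _ = C ^ (e - 2 + 1) * FF (n + e) := by rw [pow_succ]; ring
          _ ≤ C ^ e * FF (n + e) :=
            mul_le_mul_of_nonneg_right (pow_le_pow_right₀ hC (by omega)) (FF_nonneg _)
  refine (key d hd n).trans ?_
  exact mul_le_mul_of_nonneg_right (pow_le_pow_right₀ hC hd12) (FF_nonneg _)

end Pool.Agent.EVN
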