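import Pool.Agent.EVN.F.Tr
import Pool.Agent.EVN.Stmt
import Pool.Agent.RAT.E.Pl2
import Pool.Agent.PLY.Main

/-!
EVN, final part: two-sided power-law bounds for all lengths `m`, `n`, on the honeycomb lattice and on the lattice `(3,12^2)`,
from the goal of EVN.
-/

namespace Pool.Agent.EVN

open Pool.Agent.Hhelper14 Pool.Agent.Hhelper64 Pool.Agent.Hhelper64.Two Pool.Agent.Hhelper64.T12 Pool.Agent.RAT
open scoped ENNReal

lemma F_PP_eq (n n' : ℕ) : (PP n n').toReal = Pr n n' := by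
  unfold PP Pr
  rw [ENNReal.toReal_div, ENNReal.toReal_mul]
  simp only [ENNReal.toReal_natCast]

lemma F_up (h : Goal) : ∃ c : ℝ, 0 < c ∧ ∃ C : ℝ, 0 < C ∧ ∀ n n' : ℕ, 1 ≤ n → n ≤ n' → Pr n n' ≤ C * (n : ℝ) ^ (-c) := by
  obtain ⟨c, C, hc, hC, h⟩ := h
  refine ⟨c, hc, C, hC, fun n n' hn hnn => ?_⟩
  rw [← F_PP_eq]
  have hn0 : (0 : ℝ) < n := by exact_mod_cast hn
  exact ENNReal.toReal_le_of_le_ofReal (by positivity) (h n n' hn hnn)

lemma F_P2_hon (m n : ℕ) : P2 honeycomb m n = Pr m n := by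
  rw [P2_eq honeycomb (Or.inl rfl)]
  unfold Pr
  simp only [a_hon, SAW.a_eq]

lemma F_P2_tr (m n : ℕ) : P2 truncated m n = Pt m n := by
  rw [P2_eq truncated (Or.inr rfl)]
  unfold Pt
  simp only [a_tr, a_eq_bn (em_mem isD_d0)]

lemma F_P2_symm (L : Set ℂ) (hL : L = honeycomb ∨ L = truncated) (m n : ℕ) : P2 L m n = P2 L n m := by
  rw [P2_eq L hL, P2_eq L hL, add_comm, mul_comm]

/-- A power-law upper bound for `a_(2n) / a_n^2` for every `n` gives a power-law lower bound for `a_n / μ^n`. -/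
lemma F_grow {a : ℕ → ℝ} {mu c C : ℝ} (hmu : 0 < mu) (hc : 0 < c) (hC : 0 < C) (hlow : ∀ n, mu ^ n ≤ a n)
    (h : ∀ n : ℕ, 1 ≤ n → a (2 * n) ≤ C * (n : ℝ) ^ (-c) * a n ^ 2) (n : ℕ) (hn : 1 ≤ n) :
    (n : ℝ) ^ c * mu ^ n ≤ C * a n := by
  have hn0 : (0 : ℝ) < n := by exact_mod_cast hn
  rcases lt_or_ge ((n : ℝ) ^ c) C with h1 | h1
  · have h2 := hlow n
    have h3 : 0 < mu ^ n := pow_pos hmu n
    nlinarith
  · have key : ∀ K : ℕ, ∀ n : ℕ, 1 ≤ n → C ≤ (n : ℝ) ^ c →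
        mu ^ n * ((n : ℝ) ^ c / C) ^ (1 - (1 / 2 : ℝ) ^ K) ≤ a n := by
      intro K
      induction K with
      | zero =>
        intro n _ _
        rw [pow_zero, sub_self, Real.rpow_zero, mul_one]
        exact hlow n
      | succ K ih =>
        intro n hn hCn
        have hn0 : (0 : ℝ) < n := by exact_mod_cast hn
        have hnc : 0 < (n : ℝ) ^ c := by positivity
        have h2n : (n : ℝ) ^ c ≤ ((2 * n : ℕ) : ℝ) ^ c := by
          refine Real.rpow_le_rpow hn0.le ?_ hc.le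
          push_cast; linarith
        have i1 := ih (2 * n) (by omega) (hCn.trans h2n)
        set q : ℝ := (n : ℝ) ^ c / C with hq
        have hq1 : 1 ≤ q := by rw [hq, le_div_iff₀ hC]; linarith
        have hq0 : 0 < q := by linarith
        set e : ℝ := (1 / 2 : ℝ) ^ K with he
        have he1 : e ≤ 1 := pow_le_one₀ (by norm_num) (by norm_num)
        have he0 : 0 < e := by positivity
        have i2 : q ^ (1 - e) ≤ (((2 * n : ℕ) : ℝ) ^ c / C) ^ (1 - e) := by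
          refine Real.rpow_le_rpow hq0.le ?_ (by linarith)
          rw [hq]
          exact div_le_div_of_nonneg_right h2n hC.le
        have hm0 : 0 < mu ^ (2 * n) := pow_pos hmu _
        have i3 : mu ^ (2 * n) * q ^ (1 - e) ≤ a (2 * n) := (mul_le_mul_of_nonneg_left i2 hm0.le).trans i1
        have i4 := h n hn
        have i5 : mu ^ (2 * n) * q ^ (1 - e) * q ≤ a n ^ 2 := by
          have i6 : mu ^ (2 * n) * q ^ (1 - e) ≤ C * (n : ℝ) ^ (-c) * a n ^ 2 := i3.trans i4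
          have i7 : C * (n : ℝ) ^ (-c) * q = 1 := by
            rw [hq, Real.rpow_neg hn0.le]
            field_simp
          calc mu ^ (2 * n) * q ^ (1 - e) * q ≤ C * (n : ℝ) ^ (-c) * a n ^ 2 * q :=
                mul_le_mul_of_nonneg_right i6 hq0.le
            _ = (C * (n : ℝ) ^ (-c) * q) * a n ^ 2 := by ring
            _ = a n ^ 2 := by rw [i7, one_mul]
        have i8 : mu ^ (2 * n) * q ^ (1 - e) * q = (mu ^ n * q ^ (1 - (1 / 2 : ℝ) ^ (K + 1))) ^ 2 := by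
          have e1 : (q ^ (1 - (1 / 2 : ℝ) ^ (K + 1))) ^ 2 = q ^ (1 - e) * q := by
            rw [← Real.rpow_natCast, ← Real.rpow_mul hq0.le]
            have : q ^ (1 - e) * q = q ^ (1 - e) * q ^ (1 : ℝ) := by rw [Real.rpow_one]
            rw [this, ← Real.rpow_add hq0]
            congr 1
            rw [he, pow_succ]
            push_cast
            ring
          rw [mul_pow, e1, ← pow_mul, mul_comm n 2]
          ring
        rw [i8] at i5
        have ha0 : 0 ≤ a n := (pow_pos hmu n).le.trans (hlow n)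
        exact (pow_le_pow_iff_left₀ (by positivity) ha0 (by norm_num)).1 i5
    have hq0 : 0 < (n : ℝ) ^ c / C := by positivity
    have hlim : Filter.Tendsto (fun K : ℕ => mu ^ n * ((n : ℝ) ^ c / C) ^ (1 - (1 / 2 : ℝ) ^ K)) Filter.atTop
        (nhds (mu ^ n * ((n : ℝ) ^ c / C) ^ (1 - (0 : ℝ)))) := by
      refine Filter.Tendsto.const_mul _ ?_
      have h2 : Filter.Tendsto (fun K : ℕ => (1 - (1 / 2 : ℝ) ^ K)) Filter.atTop (nhds (1 - 0)) :=
        tendsto_const_nhds.sub (tendsto_pow_atTop_nhds_zero_of_lt_one (by norm_num) (by norm_num))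
      exact (Real.continuousAt_const_rpow hq0.ne').tendsto.comp h2
    have h3 := le_of_tendsto' hlim fun K => key K n hn h1
    rw [sub_zero, Real.rpow_one] at h3
    have h4 : mu ^ n * ((n : ℝ) ^ c / C) = (n : ℝ) ^ c * mu ^ n / C := by ring
    rw [h4, div_le_iff₀ hC] at h3
    linarith

/-- The final theorem from the goal. -/
theorem power_law (h : Goal) (L : Set ℂ) (hL : L = honeycomb ∨ L = truncated) :
    ∃ c C : ℝ, 0 < c ∧ 0 < C ∧
      (∀ n : ℕ, 1 ≤ n → (n : ℝ) ^ c * muL L ^ n / C ≤ a L n ∧ (a L n : ℝ) ≤ C * (n : ℝ) ^ C * muL L ^ n) ∧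
      ∀ m n : ℕ, 1 ≤ m → 1 ≤ n →
        ((min m n : ℕ) : ℝ) ^ (-C) / C ≤ P2 L m n ∧ P2 L m n ≤ C * ((min m n : ℕ) : ℝ) ^ (-c) := by
  obtain ⟨c, hc, Cu, hCu, hup⟩ := F_up h
  have key : ∃ C1 C2 : ℝ, 0 < C1 ∧ 0 < C2 ∧ ∀ m n : ℕ, 1 ≤ m → m ≤ n →
      (m : ℝ) ^ (-C1) / C1 ≤ P2 L m n ∧ P2 L m n ≤ C2 * (m : ℝ) ^ (-c) := by
    rcases hL with rfl | rfl
    · obtain ⟨C1, h1, h2⟩ := low2
      refine ⟨C1, Cu, h1, hCu, fun m n hm hmn => ?_⟩
      rw [F_P2_hon]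
      exact ⟨h2 m n hm hmn, hup m n hm hmn⟩
    · obtain ⟨C1, h1, h2⟩ := low12
      obtain ⟨C2, h3, h4⟩ := up12 hc ⟨Cu, hCu, hup⟩
      refine ⟨C1, C2, h1, h3, fun m n hm hmn => ?_⟩
      rw [F_P2_tr]
      exact ⟨h2 m n hm hmn, h4 m n hm hmn⟩
  obtain ⟨C1, C2, h1, h2, hk⟩ := key
  have hp : ∃ C : ℝ, 0 < C ∧ ∀ n : ℕ, 1 ≤ n → (SAW.an n : ℝ) ≤ C * (n : ℝ) ^ C * SAW.mu ^ n := by
    obtain ⟨K, hK, -, up⟩ := an_bounds
    exact ⟨K, hK, up⟩
  obtain ⟨C3, h3, h4⟩ := poly2 hp L hL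
  obtain ⟨hmu, hpos, -, hge, -⟩ := facts hp L hL
  set C : ℝ := C1 + C2 + C3 with hC
  have hC0 : 0 < C := by positivity
  have hk' : ∀ m n : ℕ, 1 ≤ m → m ≤ n → (m : ℝ) ^ (-C) / C ≤ P2 L m n ∧ P2 L m n ≤ C * (m : ℝ) ^ (-c) := by
    intro m n hm hmn
    obtain ⟨g1, g2⟩ := hk m n hm hmn
    have hm1 : (1 : ℝ) ≤ m := by exact_mod_cast hm
    constructor
    · refine le_trans ?_ g1
      have e1 : (m : ℝ) ^ (-C) ≤ (m : ℝ) ^ (-C1) := Real.rpow_le_rpow_of_exponent_le hm1 (by linarith)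
      have e2 : C1 ≤ C := by linarith
      gcongr
    · refine g2.trans ?_
      have e2 : C2 ≤ C := by linarith
      gcongr
  refine ⟨c, C, hc, hC0, fun n hn => ⟨?_, ?_⟩, ?_⟩
  · rw [div_le_iff₀ hC0, mul_comm (a L n : ℝ)]
    refine F_grow (a := fun n => (a L n : ℝ)) hmu hc hC0 hge (fun n hn => ?_) n hn
    have g := (hk' n n hn le_rfl).2
    have hpn := hpos n
    rw [P2_eq L hL, ← two_mul, div_le_iff₀ (mul_pos hpn hpn)] at g
    calc (a L (2 * n) : ℝ) ≤ C * (n : ℝ) ^ (-c) * (a L n * a L n) := g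
      _ = _ := by ring
  · have hn1 : (1 : ℝ) ≤ n := by exact_mod_cast hn
    refine (h4 n hn).1.trans ?_
    have e1 : (n : ℝ) ^ C3 ≤ (n : ℝ) ^ C := Real.rpow_le_rpow_of_exponent_le hn1 (by linarith)
    have e2 : C3 ≤ C := by linarith
    gcongr
  · intro m n hm hn
    rcases Nat.le_total m n with hmn | hmn
    · rw [Nat.min_eq_left hmn]
      exact hk' m n hm hmn
    · rw [Nat.min_eq_right hmn, F_P2_symm L hL]
      exact hk' n m hn hmn

end Pool.Agent.EVN
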