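import Pool.Agent.EVN.F.Cnt
import Pool.Agent.Hhelper64.T12.Tr

/-!
EVN, final part: the bounds for two lengths `n ≤ n'` are transferred from the honeycomb lattice to the lattice `(3,12^2)`.
-/

namespace Pool.Agent.EVN

open Pool.Agent.Hhelper14.SAW Pool.Agent.Hhelper64.T12 Finset

/-! ### `bn` against `FF` -/

lemma F_nw : ∃ C : ℝ, 1 ≤ C ∧ ∀ k : ℕ, (nw k : ℝ) ≤ C * an k := by
  obtain ⟨C, hC, h⟩ := an_succ_ge
  refine ⟨6 * C + 1, by linarith, fun k => ?_⟩
  cases k with
  | zero =>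
    have : (an 0 : ℝ) = 1 := by rw [an_zero]; norm_num
    simp only [nw, Nat.cast_one, this]
    linarith
  | succ k =>
    unfold nw
    push_cast
    have := h k
    have := F_an_pos (k + 1)
    nlinarith

lemma F_NC : ∃ C : ℝ, 1 ≤ C ∧ ∀ n : ℕ, 2 ≤ n → ((NC n).ncard : ℝ) ≤ C * (FF n + FF (n - 1) + FF (n - 2)) := by
  obtain ⟨C, hC, h⟩ := F_nw
  refine ⟨6 * C, by linarith, fun n hn => ?_⟩
  have h1 : ((NC n).ncard : ℝ) ≤ ∑ j ∈ range 3, if j ≤ n then
      6 * ∑ k ∈ range (n + 1), (nw k : ℝ) * cnt k (n - j) else 0 := by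
    have h2 : (((NC n).ncard : ℕ) : ℝ) ≤ ((∑ j ∈ range 3, if j ≤ n then
      6 * ∑ k ∈ range (n + 1), nw k * cnt k (n - j) else 0 : ℕ) : ℝ) := by exact_mod_cast NC_card n
    refine h2.trans (le_of_eq ?_)
    push_cast
    rfl
  have key : ∀ j : ℕ, 6 * ∑ k ∈ range (n + 1), (nw k : ℝ) * cnt k (n - j) ≤ 6 * C * FF (n - j) := by
    intro j
    rw [FF_eq (show n - j ≤ n by omega), mul_assoc, mul_sum, mul_sum, mul_sum]
    refine sum_le_sum fun k _ => ?_
    have := h k
    have h0 : (0 : ℝ) ≤ cnt k (n - j) := Nat.cast_nonneg _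
    nlinarith
  rw [sum_range_succ, sum_range_succ, sum_range_one, if_pos (by omega), if_pos (by omega), if_pos (by omega)] at h1
  have k0 := key 0
  have k1 := key 1
  have k2 := key 2
  rw [Nat.sub_zero] at k0
  simp only [Nat.sub_zero] at h1 k0
  linarith

lemma F_bn3 : ∃ C : ℝ, 1 ≤ C ∧ ∀ n : ℕ, 3 ≤ n →
    (bn n : ℝ) ≤ C * (FF n + FF (n - 1) + FF (n - 2) + FF (n - 3)) := by
  obtain ⟨C, hC, h⟩ := F_NC
  refine ⟨2 * C, by linarith, fun n hn => ?_⟩
  obtain ⟨m, rfl⟩ : ∃ m, n = m + 1 := ⟨n - 1, by omega⟩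
  have h1 : (bn (m + 1) : ℝ) ≤ (NC (m + 1)).ncard + (NC m).ncard := by exact_mod_cast upper_split m
  have h2 := h (m + 1) (by omega)
  have h3 := h m (by omega)
  rw [show m + 1 - 1 = m by omega, show m + 1 - 2 = m - 1 by omega] at h2 ⊢
  rw [show m + 1 - 3 = m - 2 by omega]
  have g1 := FF_nonneg (m + 1)
  have g2 := FF_nonneg m
  have g3 := FF_nonneg (m - 1)
  have g4 := FF_nonneg (m - 2)
  nlinarith

lemma FF_zero : FF 0 = 1 := by
  unfold FF
  rw [zero_add, sum_range_one, cnt_zero, if_pos rfl, an_zero]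
  norm_num

lemma F_bn_mul (n m : ℕ) : (bn (n + m) : ℝ) ≤ bn n * bn m := by exact_mod_cast bn_submul n m

/-- `FF (n - 1) ≤ C FF n` for `n ≥ 2`. -/
lemma FF_pred : ∃ C : ℝ, 1 ≤ C ∧ ∀ n : ℕ, 2 ≤ n → FF (n - 1) ≤ C * FF n := by
  obtain ⟨A, hA, ha⟩ := FF_add
  obtain ⟨B, hB, hb⟩ := F_bn3
  set M : ℝ := ∑ i ∈ range 9, FF i with hM
  have hM0 : 0 ≤ M := sum_nonneg fun _ _ => FF_nonneg _
  have hb4 := bn_pos 4
  refine ⟨M * A + 6 * bn 4 * B * A + 1, ?_, fun n hn => ?_⟩
  · have : 0 ≤ M * A := by positivity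
    have : 0 ≤ 6 * bn 4 * B * A := by positivity
    linarith
  have hF := FF_nonneg n
  rcases Nat.lt_or_ge n 9 with h9 | h9
  · have h1 : FF (n - 1) ≤ M := by
      rw [hM]
      exact single_le_sum (f := FF) (fun _ _ => FF_nonneg _) (mem_range.2 (by omega))
    have h2 := ha 0 n hn (by omega)
    rw [FF_zero, zero_add] at h2
    have h3 : M ≤ M * A * FF n := by nlinarith
    have h4 : 0 ≤ 6 * bn 4 * B * A * FF n := by positivity
    linarith [add_mul (M * A + 6 * bn 4 * B * A) 1 (FF n), add_mul (M * A) (6 * bn 4 * B * A) (FF n)]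
  · have h1 := FF_le_bn (n - 1)
    have h2 := F_bn_mul 4 (n - 5)
    rw [show 4 + (n - 5) = n - 1 by omega] at h2
    have h3 := hb (n - 5) (by omega)
    have g0 := ha (n - 5) 5 (by norm_num) (by norm_num)
    have g1 := ha (n - 5 - 1) 6 (by norm_num) (by norm_num)
    have g2 := ha (n - 5 - 2) 7 (by norm_num) (by norm_num)
    have g3 := ha (n - 5 - 3) 8 (by norm_num) (by norm_num)
    rw [show n - 5 + 5 = n by omega] at g0
    rw [show n - 5 - 1 + 6 = n by omega] at g1
    rw [show n - 5 - 2 + 7 = n by omega] at g2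
    rw [show n - 5 - 3 + 8 = n by omega] at g3
    have h4 : (bn (n - 5) : ℝ) ≤ B * (4 * (A * FF n)) := h3.trans (mul_le_mul_of_nonneg_left (by linarith) (by linarith))
    have h5 : (bn (n - 1) : ℝ) ≤ bn 4 * (B * (4 * (A * FF n))) := h2.trans (mul_le_mul_of_nonneg_left h4 hb4.le)
    have h6 : 0 ≤ M * A * FF n := by positivity
    calc FF (n - 1) ≤ 3 / 2 * bn (n - 1) := by linarith
      _ ≤ 3 / 2 * (bn 4 * (B * (4 * (A * FF n)))) := by linarith
      _ = 6 * bn 4 * B * A * FF n := by ring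
      _ ≤ _ := by nlinarith

/-- `FF (n - d) ≤ C FF n` for `d ≤ 12`, `d ≤ n`, `n ≥ 2`. -/
lemma FF_dom : ∃ C : ℝ, 1 ≤ C ∧ ∀ n d : ℕ, 2 ≤ n → d ≤ n → d ≤ 12 → FF (n - d) ≤ C * FF n := by
  obtain ⟨A, hA, ha⟩ := FF_add
  obtain ⟨B, hB, hb⟩ := FF_pred
  refine ⟨A + B, by linarith, fun n d hn hd hd12 => ?_⟩
  have hF := FF_nonneg n
  rcases Nat.lt_or_ge d 2 with h2 | h2
  · interval_cases d
    · rw [Nat.sub_zero]; nlinarith
    · have := hb n hn
      nlinarith
  · have := ha (n - d) d h2 hd12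
    rw [show n - d + d = n by omega] at this
    nlinarith

lemma FF_pos {n : ℕ} (hn : 2 ≤ n) : 0 < FF n := by
  obtain ⟨A, hA, ha⟩ := FF_step
  -- all sums of 2 and 3
  induction n using Nat.strong_induction_on with
  | _ n ih =>
    rcases Nat.lt_or_ge n 4 with h | h
    · interval_cases n
      · have := (ha 0).1
        rw [FF_zero] at this
        by_contra hc
        have h0 := FF_nonneg 2
        have : FF 2 = 0 := le_antisymm (not_lt.1 hc) h0
        simp only [zero_add, this, mul_zero] at *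
        linarith
      · have := (ha 0).2
        rw [FF_zero] at this
        by_contra hc
        have h0 := FF_nonneg 3
        have : FF 3 = 0 := le_antisymm (not_lt.1 hc) h0
        simp only [zero_add, this, mul_zero] at *
        linarith
    · have h1 := ih (n - 2) (by omega) (by omega)
      have h2 := (ha (n - 2)).1
      rw [show n - 2 + 2 = n by omega] at h2
      by_contra hc
      have h0 := FF_nonneg n
      have h3 : FF n = 0 := le_antisymm (not_lt.1 hc) h0
      rw [h3, mul_zero] at h2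
      linarith

lemma bn_le_FF : ∃ C : ℝ, 1 ≤ C ∧ ∀ n : ℕ, 2 ≤ n → (bn n : ℝ) ≤ C * FF n := by
  obtain ⟨A, hA, ha⟩ := FF_dom
  obtain ⟨B, hB, hb⟩ := F_bn3
  have h2 := FF_pos (le_refl 2)
  have hb2 := bn_pos 2
  refine ⟨4 * (B * A) + bn 2 / FF 2, ?_, fun n hn => ?_⟩
  · have : 0 < (bn 2 : ℝ) / FF 2 := by positivity
    nlinarith
  have hF := FF_nonneg n
  rcases Nat.lt_or_ge n 3 with h3 | h3
  · obtain rfl : n = 2 := by omega
    have e : (bn 2 : ℝ) / FF 2 * FF 2 = bn 2 := div_mul_cancel₀ _ h2.ne'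
    have : 0 ≤ 4 * (B * A) * FF 2 := by positivity
    rw [add_mul, e]
    linarith
  · have g1 := ha n 1 hn (by omega) (by norm_num)
    have g2 := ha n 2 hn (by omega) (by norm_num)
    have g3 := ha n 3 hn (by omega) (by norm_num)
    have g4 := hb n h3
    have g5 : 0 ≤ (bn 2 : ℝ) / FF 2 * FF n := by positivity
    have g6 : (bn n : ℝ) ≤ B * (4 * (A * FF n)) := by
      refine g4.trans (mul_le_mul_of_nonneg_left ?_ (by linarith))
      nlinarith
    rw [add_mul]
    linarith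

/-! ### double sums -/

lemma F_dbl (f g : ℕ → ℝ) (M : ℕ) : ∑ m ∈ range (M + 1), ∑ k ∈ range (m + 1), f k * g (m - k) =
    ∑ k ∈ range (M + 1), f k * ∑ l ∈ range (M + 1 - k), g l := by
  rw [sum_comm' (t' := range (M + 1)) (s' := fun k => Ico k (M + 1))]
  · refine sum_congr rfl fun k _ => ?_
    rw [← mul_sum, sum_Ico_eq_sum_range]
    congr 1
    refine sum_congr rfl fun i _ => ?_
    rw [Nat.add_sub_cancel_left]
  · intro x y
    simp only [mem_range, mem_Ico]
    omega

lemma F_dbl_le (f g : ℕ → ℝ) (hf : ∀ k, 0 ≤ f k) (hg : ∀ k, 0 ≤ g k) (M : ℕ) :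
    ∑ m ∈ range (M + 1), ∑ k ∈ range (m + 1), f k * g (m - k) ≤
      (∑ k ∈ range (M + 1), f k) * ∑ l ∈ range (M + 1), g l := by
  rw [F_dbl, sum_mul]
  refine sum_le_sum fun k _ => mul_le_mul_of_nonneg_left ?_ (hf k)
  exact sum_le_sum_of_subset_of_nonneg (range_mono (by omega)) fun _ _ _ => hg _

lemma F_le_dbl (f g : ℕ → ℝ) (hf : ∀ k, 0 ≤ f k) (hg : ∀ k, 0 ≤ g k) (n n' : ℕ) :
    (∑ k ∈ range (n + 1), f k) * ∑ l ∈ range (n' + 1), g l ≤
      ∑ m ∈ range (n + n' + 1), ∑ k ∈ range (m + 1), f k * g (m - k) := by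
  rw [F_dbl, sum_mul]
  refine (sum_le_sum fun k hk => ?_).trans (sum_le_sum_of_subset_of_nonneg (f := fun k => f k *
    ∑ l ∈ range (n + n' + 1 - k), g l) (range_mono (by omega : n + 1 ≤ n + n' + 1)) fun _ _ _ =>
      mul_nonneg (hf _) (sum_nonneg fun _ _ => hg _))
  refine mul_le_mul_of_nonneg_left ?_ (hf k)
  rw [mem_range] at hk
  exact sum_le_sum_of_subset_of_nonneg (range_mono (by omega)) fun _ _ _ => hg _

/-! ### the transfer -/

lemma Pr_symm (n n' : ℕ) : Pr n n' = Pr n' n := by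
  unfold Pr
  rw [add_comm, mul_comm]

lemma Pr_mul (n n' : ℕ) : (an (n + n') : ℝ) = Pr n n' * (an n * an n') := by
  unfold Pr
  rw [div_mul_cancel₀]
  exact mul_ne_zero (F_an_pos _).ne' (F_an_pos _).ne'

/-- The probability for the lattice `(3,12^2)`. -/
noncomputable def Pt (n n' : ℕ) : ℝ := (bn (n + n') : ℝ) / ((bn n : ℝ) * (bn n' : ℝ))

/-- LOWER BOUND for the lattice `(3,12^2)`. -/
theorem low12 : ∃ C : ℝ, 0 < C ∧ ∀ n n' : ℕ, 1 ≤ n → n ≤ n' → (n : ℝ) ^ (-C) / C ≤ Pt n n' := by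
  obtain ⟨C, hC, hlow⟩ := low2
  obtain ⟨B, hB, hb⟩ := bn_le_FF
  obtain ⟨A, hA, ha⟩ := FF_pred
  have hb1 := bn_pos 1
  have hb2 := bn_pos 2
  set D : ℝ := C + 3 / 2 * B ^ 2 * C + 3 / 2 * A * B * bn 1 + bn 1 ^ 2 / bn 2 with hD
  have hD0 : 0 < D := by positivity
  refine ⟨D, hD0, fun n n' hn hnn => ?_⟩
  have hn1 : (1 : ℝ) ≤ n := by exact_mod_cast hn
  have hn0 : (0 : ℝ) < n := by linarith
  have t1 := bn_pos n
  have t2 := bn_pos n'
  have t3 := bn_pos (n + n')
  have hCD : C ≤ D := by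
    have : 0 ≤ 3 / 2 * B ^ 2 * C + 3 / 2 * A * B * bn 1 + bn 1 ^ 2 / bn 2 := by positivity
    linarith
  unfold Pt
  rw [div_le_div_iff₀ hD0 (mul_pos t1 t2)]
  rcases Nat.lt_or_ge n 2 with h2 | h2
  · obtain rfl : n = 1 := by omega
    rw [Nat.cast_one, Real.one_rpow, one_mul]
    rcases Nat.lt_or_ge n' 2 with h2' | h2'
    · obtain rfl : n' = 1 := by omega
      have e : (bn 2 : ℝ) * (bn 1 ^ 2 / bn 2) = bn 1 * bn 1 := by field_simp
      have : 0 ≤ (bn 2 : ℝ) * (C + 3 / 2 * B ^ 2 * C + 3 / 2 * A * B * bn 1) := by positivity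
      rw [show 1 + 1 = 2 from rfl, hD, mul_add, e]
      linarith
    · have g1 := hb n' h2'
      have g2 := ha (n' + 1) (by omega)
      rw [Nat.add_sub_cancel] at g2
      have g3 := FF_le_bn (n' + 1)
      have g4 : (bn n' : ℝ) ≤ 3 / 2 * A * B * bn (n' + 1) := by
        calc (bn n' : ℝ) ≤ B * FF n' := g1
          _ ≤ B * (A * FF (n' + 1)) := by gcongr
          _ ≤ B * (A * (3 / 2 * bn (n' + 1))) := by
              gcongr
              linarith
          _ = _ := by ring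
      have t3' : (0 : ℝ) < bn (1 + n') := t3
      rw [add_comm n' 1] at g4
      calc (bn 1 : ℝ) * bn n' ≤ bn 1 * (3 / 2 * A * B * bn (1 + n')) := by gcongr
        _ = bn (1 + n') * (3 / 2 * A * B * bn 1) := by ring
        _ ≤ bn (1 + n') * D := by
            refine mul_le_mul_of_nonneg_left ?_ t3'.le
            have : 0 ≤ C + 3 / 2 * B ^ 2 * C + bn 1 ^ 2 / bn 2 := by positivity
            linarith
  · -- the main case
    set δ : ℝ := (n : ℝ) ^ (-C) / C with hδ
    have hδ0 : 0 < δ := by positivity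
    have hterm : ∀ k l : ℕ, (cnt k n : ℝ) * cnt l n' ≠ 0 → δ * (an k * an l) ≤ an (k + l) := by
      intro k l hkl
      have h1 : ¬ (n < 2 * k ∨ 3 * k < n) := fun h => hkl (by rw [cnt_eq_zero k n h]; simp)
      have h3 : ¬ (n' < 2 * l ∨ 3 * l < n') := fun h => hkl (by rw [cnt_eq_zero l n' h]; simp)
      rw [Pr_mul]
      refine mul_le_mul_of_nonneg_right ?_ (mul_pos (F_an_pos _) (F_an_pos _)).le
      have hpow : ∀ j : ℕ, 1 ≤ j → j ≤ n → δ ≤ (j : ℝ) ^ (-C) / C := by
        intro j hj hjn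
        rw [hδ]
        refine div_le_div_of_nonneg_right ?_ hC.le
        exact Real.rpow_le_rpow_of_nonpos (by exact_mod_cast hj) (by exact_mod_cast hjn) (by linarith)
      rcases Nat.le_total k l with hkl' | hkl'
      · exact (hpow k (by omega) (by omega)).trans (hlow k l (by omega) hkl')
      · rw [Pr_symm]
        exact (hpow l (by omega) (by omega)).trans (hlow l k (by omega) hkl')
    have hmain : δ * (FF n * FF n') ≤ FF (n + n') := by
      have e1 : FF n * FF n' ≤ ∑ m ∈ range (n + n' + 1), ∑ k ∈ range (m + 1),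
          ((an k : ℝ) * cnt k n) * ((an (m - k) : ℝ) * cnt (m - k) n') :=
        F_le_dbl (fun k => (an k : ℝ) * cnt k n) (fun l => (an l : ℝ) * cnt l n') (fun _ => by positivity)
          (fun _ => by positivity) n n'
      have e2 : δ * ∑ m ∈ range (n + n' + 1), ∑ k ∈ range (m + 1),
          ((an k : ℝ) * cnt k n) * ((an (m - k) : ℝ) * cnt (m - k) n') ≤ FF (n + n') := by
        unfold FF
        rw [mul_sum]
        refine sum_le_sum fun m _ => ?_
        have e3 : (∑ k ∈ range (m + 1), (cnt k n : ℝ) * cnt (m - k) n') ≤ cnt m (n + n') := by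
          exact_mod_cast F_cnt_mul n n' m
        refine le_trans ?_ (mul_le_mul_of_nonneg_left e3 (Nat.cast_nonneg _))
        rw [mul_sum, mul_sum]
        refine sum_le_sum fun k hk => ?_
        rw [mem_range] at hk
        by_cases hz : (cnt k n : ℝ) * cnt (m - k) n' = 0
        · have : ((an k : ℝ) * cnt k n) * ((an (m - k) : ℝ) * cnt (m - k) n') =
              (an k * an (m - k)) * ((cnt k n : ℝ) * cnt (m - k) n') := by ring
          rw [this, hz]; simp
        · have e4 := hterm k (m - k) hz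
          rw [show k + (m - k) = m by omega] at e4
          calc δ * (((an k : ℝ) * cnt k n) * ((an (m - k) : ℝ) * cnt (m - k) n')) =
                (δ * (an k * an (m - k))) * ((cnt k n : ℝ) * cnt (m - k) n') := by ring
            _ ≤ an m * ((cnt k n : ℝ) * cnt (m - k) n') := mul_le_mul_of_nonneg_right e4 (by positivity)
      exact (mul_le_mul_of_nonneg_left e1 hδ0.le).trans e2
    have g1 := hb n h2
    have g2 := hb n' (by omega)
    have g3 := FF_le_bn (n + n')
    have f1 := FF_nonneg n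
    have f2 := FF_nonneg n'
    have g4 : (n : ℝ) ^ (-D) ≤ C * δ := by
      have : C * δ = (n : ℝ) ^ (-C) := by rw [hδ]; field_simp
      rw [this]
      exact Real.rpow_le_rpow_of_exponent_le hn1 (by linarith)
    calc (n : ℝ) ^ (-D) * (bn n * bn n') ≤ (C * δ) * ((B * FF n) * (B * FF n')) := by gcongr
      _ = C * B ^ 2 * (δ * (FF n * FF n')) := by ring
      _ ≤ C * B ^ 2 * (3 / 2 * bn (n + n')) := by
          refine mul_le_mul_of_nonneg_left ?_ (by positivity)
          linarith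
      _ = bn (n + n') * (3 / 2 * B ^ 2 * C) := by ring
      _ ≤ bn (n + n') * D := by
          refine mul_le_mul_of_nonneg_left ?_ t3.le
          have : 0 ≤ C + 3 / 2 * A * B * bn 1 + bn 1 ^ 2 / bn 2 := by positivity
          linarith

/-- UPPER BOUND for the lattice `(3,12^2)`. -/
theorem up12 {c : ℝ} (hc : 0 < c) (h : ∃ C : ℝ, 0 < C ∧ ∀ n n' : ℕ, 1 ≤ n → n ≤ n' → Pr n n' ≤ C * (n : ℝ) ^ (-c)) :
    ∃ C : ℝ, 0 < C ∧ ∀ n n' : ℕ, 1 ≤ n → n ≤ n' → Pt n n' ≤ C * (n : ℝ) ^ (-c) := by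
  obtain ⟨C, hC, hup⟩ := h
  obtain ⟨B, hB, hb⟩ := bn_le_FF
  obtain ⟨A, hA, ha⟩ := FF_dom
  obtain ⟨B3, hB3, hb3⟩ := F_bn3
  have hbp1 := bn_pos 1
  set E : ℝ := bn 0 + bn 1 + bn 2 with hE
  have hE0 : 0 < E := by have := bn_pos 0; have := bn_pos 2; positivity
  set D : ℝ := 18 ^ c + B3 * (27 * (C * 18 ^ c * E * A)) with hD
  have hD0 : 0 < D := by positivity
  refine ⟨D, hD0, fun n n' hn hnn => ?_⟩
  have hn1 : (1 : ℝ) ≤ n := by exact_mod_cast hn
  have hn0 : (0 : ℝ) < n := by linarith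
  have t1 := bn_pos n
  have t2 := bn_pos n'
  have hnc : 0 < (n : ℝ) ^ (-c) := by positivity
  unfold Pt
  rw [div_le_iff₀ (mul_pos t1 t2)]
  rcases Nat.lt_or_ge n' 9 with h9 | h9
  · have e1 : (1 : ℝ) ≤ 18 ^ c * (n : ℝ) ^ (-c) := by
      rw [Real.rpow_neg hn0.le, ← div_eq_mul_inv, one_le_div (by positivity)]
      refine Real.rpow_le_rpow hn0.le ?_ hc.le
      have : n ≤ 18 := by omega
      exact_mod_cast this
    have e2 : (1 : ℝ) ≤ D * (n : ℝ) ^ (-c) := by
      refine e1.trans (mul_le_mul_of_nonneg_right ?_ hnc.le)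
      have : 0 ≤ B3 * (27 * (C * 18 ^ c * E * A)) := by positivity
      linarith
    calc (bn (n + n') : ℝ) ≤ bn n * bn n' := F_bn_mul n n'
      _ = 1 * (bn n * bn n') := (one_mul _).symm
      _ ≤ _ := mul_le_mul_of_nonneg_right e2 (mul_pos t1 t2).le
  · set δ : ℝ := C * 18 ^ c * (n : ℝ) ^ (-c) with hδ
    have hδ0 : 0 < δ := by positivity
    have hpow : ∀ k l : ℕ, 1 ≤ k → k ≤ l → n ≤ 18 * k → (an (k + l) : ℝ) ≤ δ * (an k * an l) := by
      intro k l hk hkl hnk
      rw [Pr_mul]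
      refine mul_le_mul_of_nonneg_right ((hup k l hk hkl).trans ?_) (mul_pos (F_an_pos _) (F_an_pos _)).le
      rw [hδ, mul_assoc]
      refine mul_le_mul_of_nonneg_left ?_ hC.le
      have hk0 : (0 : ℝ) < k := by exact_mod_cast hk
      have h1 : (n : ℝ) ≤ 18 * k := by exact_mod_cast hnk
      rw [Real.rpow_neg hk0.le, Real.rpow_neg hn0.le, ← div_eq_mul_inv, inv_eq_one_div,
        div_le_div_iff₀ (by positivity) (by positivity), one_mul, ← Real.mul_rpow (by norm_num) hk0.le]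
      exact Real.rpow_le_rpow hn0.le h1 hc.le
    have hterm : ∀ s e k l : ℕ, n' ≤ s + 3 → e < 3 → (cnt k (n + e) : ℝ) * cnt l (s - e) ≠ 0 →
        (an (k + l) : ℝ) ≤ δ * (an k * an l) := by
      intro s e k l hs he hkl
      have h1 : ¬ (n + e < 2 * k ∨ 3 * k < n + e) := fun h => hkl (by rw [cnt_eq_zero k _ h]; simp)
      have h3 : ¬ (s - e < 2 * l ∨ 3 * l < s - e) := fun h => hkl (by rw [cnt_eq_zero l _ h]; simp)
      rcases Nat.le_total k l with hkl' | hkl'
      · exact hpow k l (by omega) hkl' (by omega)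
      · rw [add_comm k l, mul_comm (an k : ℝ)]
        exact hpow l k (by omega) hkl' (by omega)
    have hcut : ∀ s : ℕ, n' ≤ s + 3 → s ≤ n' → FF (n + s) ≤ δ * ∑ e ∈ range 3, FF (n + e) * FF (s - e) := by
      intro s hs hsn
      have hs2 : 2 ≤ s := by omega
      have e1 : FF (n + s) ≤ ∑ m ∈ range (n + s + 1), ∑ e ∈ range 3, ∑ k ∈ range (m + 1),
          (an m : ℝ) * ((cnt k (n + e) : ℝ) * cnt (m - k) (s - e)) := by
        unfold FF
        refine sum_le_sum fun m _ => ?_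
        have e2 : (cnt m (n + s) : ℝ) ≤ ∑ e ∈ range 3, ∑ k ∈ range (m + 1), (cnt k (n + e) : ℝ) * cnt (m - k) (s - e) := by
          have := F_cnt_cut s hs2 n m
          unfold cutS at this
          exact_mod_cast this
        refine (mul_le_mul_of_nonneg_left e2 (Nat.cast_nonneg _)).trans (le_of_eq ?_)
        rw [mul_sum]
        refine sum_congr rfl fun e _ => ?_
        rw [mul_sum]
      refine e1.trans ?_
      rw [sum_comm, mul_sum]
      refine sum_le_sum fun e he => ?_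
      rw [mem_range] at he
      have e3 : ∑ m ∈ range (n + s + 1), ∑ k ∈ range (m + 1),
          ((an k : ℝ) * cnt k (n + e)) * ((an (m - k) : ℝ) * cnt (m - k) (s - e)) ≤ FF (n + e) * FF (s - e) := by
        rw [FF_eq (show n + e ≤ n + s by omega), FF_eq (show s - e ≤ n + s by omega)]
        exact F_dbl_le (fun k => (an k : ℝ) * cnt k (n + e)) (fun l => (an l : ℝ) * cnt l (s - e))
          (fun _ => by positivity) (fun _ => by positivity) (n + s)
      refine le_trans ?_ (mul_le_mul_of_nonneg_left e3 hδ0.le)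
      rw [mul_sum]
      refine sum_le_sum fun m _ => ?_
      rw [mul_sum]
      refine sum_le_sum fun k hk => ?_
      rw [mem_range] at hk
      by_cases hz : (cnt k (n + e) : ℝ) * cnt (m - k) (s - e) = 0
      · rw [hz, mul_zero]; positivity
      · have e4 := hterm s e k (m - k) hs he hz
        rw [show k + (m - k) = m by omega] at e4
        calc (an m : ℝ) * ((cnt k (n + e) : ℝ) * cnt (m - k) (s - e)) ≤
              (δ * (an k * an (m - k))) * ((cnt k (n + e) : ℝ) * cnt (m - k) (s - e)) :=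
              mul_le_mul_of_nonneg_right e4 (by positivity)
          _ = _ := by ring
    have hFe : ∀ e : ℕ, e < 3 → FF (n + e) ≤ 3 / 2 * (E * bn n) := by
      intro e he
      have h1 := FF_le_bn (n + e)
      have h2 := F_bn_mul n e
      have h3 : (bn e : ℝ) ≤ E := by
        have := bn_pos 0
        have := bn_pos 1
        have := bn_pos 2
        interval_cases e <;> rw [hE] <;> linarith
      have h4 : (bn (n + e) : ℝ) ≤ E * bn n := by
        refine h2.trans ?_
        rw [mul_comm]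
        exact mul_le_mul_of_nonneg_right h3 t1.le
      linarith
    have hFs : ∀ i e : ℕ, i ≤ 3 → e < 3 → FF (n' - i - e) ≤ A * (3 / 2 * bn n') := by
      intro i e hi he
      have h1 := ha n' (i + e) (by omega) (by omega) (by omega)
      rw [← Nat.sub_sub] at h1
      have h2 := FF_le_bn n'
      refine h1.trans (mul_le_mul_of_nonneg_left ?_ (by linarith))
      linarith
    have hFF : ∀ i : ℕ, i ≤ 3 → FF (n + n' - i) ≤ δ * (27 / 4 * (E * A * (bn n * bn n'))) := by
      intro i hi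
      rw [show n + n' - i = n + (n' - i) by omega]
      refine (hcut (n' - i) (by omega) (by omega)).trans (mul_le_mul_of_nonneg_left ?_ hδ0.le)
      have h1 : ∀ e ∈ range 3, FF (n + e) * FF (n' - i - e) ≤ 9 / 4 * (E * A * (bn n * bn n')) := by
        intro e he
        rw [mem_range] at he
        calc FF (n + e) * FF (n' - i - e) ≤ (3 / 2 * (E * bn n)) * (A * (3 / 2 * bn n')) :=
              mul_le_mul (hFe e he) (hFs i e hi he) (FF_nonneg _) (by positivity)
          _ = _ := by ring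
      refine (sum_le_sum h1).trans (le_of_eq ?_)
      rw [sum_const, card_range]
      simp only [nsmul_eq_mul]
      push_cast
      ring
    have h3 := hb3 (n + n') (by omega)
    have k0 := hFF 0 (by omega)
    have k1 := hFF 1 (by omega)
    have k2 := hFF 2 (by omega)
    have k3 := hFF 3 (by omega)
    rw [Nat.sub_zero] at k0
    calc (bn (n + n') : ℝ) ≤ B3 * (FF (n + n') + FF (n + n' - 1) + FF (n + n' - 2) + FF (n + n' - 3)) := h3
      _ ≤ B3 * (27 * (δ * (E * A * (bn n * bn n')))) := by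
          refine mul_le_mul_of_nonneg_left ?_ (by linarith)
          linarith
      _ = B3 * (27 * (C * 18 ^ c * E * A)) * (n : ℝ) ^ (-c) * (bn n * bn n') := by rw [hδ]; ring
      _ ≤ D * (n : ℝ) ^ (-c) * (bn n * bn n') := by
          refine mul_le_mul_of_nonneg_right (mul_le_mul_of_nonneg_right ?_ hnc.le) (mul_pos t1 t2).le
          have : (0 : ℝ) ≤ 18 ^ c := by positivity
          linarith

end Pool.Agent.EVN
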